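import Pool.Agent.Lib.MP_743d1e_nt.GA.Main
import Pool.Agent.Lib.MP_743d1e_nt.Kae
import Pool.Agent.Lib.MP_743d1e_nt.Trace
import Pool.Agent.Lib.MP_743d1e_nt.GonAbs
import Pool.Agent.Lib.MP_743d1e_nt.GA.IRP
import Pool.Agent.Lib.MP_743d1e_nt.GA.INP
import Pool.Agent.Lib.MP_743d1e_nt.GA.ZER
import Pool.Agent.Lib.MP_743d1e_nt.GA.UPL
import Pool.Agent.Lib.MP_743d1e_nt.GA.RSD
import Pool.Agent.Lib.MP_743d1e_nt.GA.DIM
import Pool.Agent.Lib.MP_743d1e_nt.GA.CNT
import Pool.Agent.Lib.MP_743d1e_nt.GA.CEL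
import Pool.Agent.Lib.MP_743d1e_nt.GA.VFL
import Pool.Agent.Lib.MP_743d1e_nt.GA.VFF
import Pool.Agent.Lib.MP_743d1e_nt.GA.NOG
import Pool.Agent.Lib.MP_743d1e_nt.GA.PBK
import Pool.Agent.Lib.MP_743d1e_nt.GA.SPX
import Pool.Agent.Lib.MP_743d1e_nt.GA.CNG
import Pool.Agent.Lib.MP_743d1e_nt.GA.K2G
import Pool.Agent.Lib.MP_743d1e_nt.GA.NMK

/-!
# Arrangements of graphs: the theorem on independent integral elements of `K_2`, strict form
-/

set_option autoImplicit false

namespace MP743d1e.GA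

open scoped BigOperators
open Polynomial

/-- The curve `lam * ∏ (x - a i) * ∏ (y - P j (x)) = 1` exists over `ℚ` and over `ℂ`, has genus
`D.g` over `ℂ`, and `ℚ` is algebraically closed in its function field over `ℚ`; the `D.g` symbols
`{(x - ctr t) / (x - a 0), (y - P (l1 t)) / (y - P (l2 t))}` are elements of `K2` of this field that
are unramified at every discrete valuation, and there are `D.g` loops along which their regulators
are as in `RegG`: equal to `2 * π * A` up to an error at most `272 * n / Λ`, with a determinant of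
absolute value at least `(2 * log Λ) ^ g`. -/
structure FullRank (D : Gr) (lam : ℤ) (Λ : ℝ) : Prop where
  exQ : ∃ (K : Type) (_ : Field K) (_ : Algebra ℚ K) (x y : K), IsCurveG ℚ K D lam x y
  exC : ∃ (K : Type) (_ : Field K) (_ : Algebra ℂ K) (x y : K), IsCurveG ℂ K D lam x y
  genus : ∀ (K : Type) [Field K] [Algebra ℂ K] (x y : K), IsCurveG ℂ K D lam x y →
    HasGenus K D.g
  const : ∀ (K : Type) [Field K] [Algebra ℚ K] (x y : K), IsCurveG ℚ K D lam x y → ConstQ K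
  rank : ∀ (K : Type) [Field K] [Algebra ℚ K] (x y : K), IsCurveG ℚ K D lam x y →
    ∃ (e' : Fin D.g ≃ D.Idx) (α : Fin D.g → K2 K) (γ : Fin D.g → Loop K),
      IsSymG D x y e' α ∧ (∀ i, Unramified (α i)) ∧ RegG D lam Λ e' α γ

theorem fullRank_of {D : Gr} {lam : ℤ} {Λ : ℝ} (h : ConclG D lam Λ) : FullRank D lam Λ := by
  obtain ⟨h1, h2, h3, h4⟩ := h
  refine ⟨h1, h2, fun K _ _ x y hK => (h4 K x y hK).1, fun K _ _ x y hK => (h3 K x y hK).1,
    fun K _ _ x y hK => ?_⟩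
  obtain ⟨-, e', α, γ, h5, h6, h7⟩ := h3 K x y hK
  exact ⟨e', α, γ, h5, fun i => (h6.1 i).1, h7⟩

theorem strict :
    (∀ (D : Gr) (lam : ℤ) (Λ : ℝ), D.thr ≤ Λ → (∀ j c, D.Node j c → Λ ≤ D.mu lam j c) →
      FullRank D lam Λ) ∧
    (∀ (D : Gr) (lam : ℤ), lam ≠ 0 → 24 ≤ D.m + D.n + D.d → FullRank D lam D.thr) ∧
    {z : (Σ m n : ℕ, (Fin m → ℤ) × (Fin n → ℤ[X])) × ℤ | z.2 ≠ 0 ∧
      ∃ D : Gr, D.data = z.1 ∧ D.a D.i0 = 0 ∧ D.P D.j0 = 0 ∧ ¬ FullRank D z.2 D.thr}.Finite := by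
  have hFinT : SpecFinT := specFinT
  have hDer : SpecDer := specDer
  have hKae : SpecKae := specKae
  have hTrace : SpecTrace := specTrace specLL hDer
  have hGonAbs : SpecGonAbs := specGonAbs hDer hTrace
  have hIRP : SpecIRP := specIRP
  have hINP : SpecINP := specINP
  have hUPI : SpecUPI := specUPI specLL hINP hIRP
  have hUPL : SpecUPL := specUPL hTrace hIRP
  have hLWR : SpecLWR := specLWR hINP hIRP hFinT
  have hDIM : SpecDIM := specDIM hIRP specNWL (specVAL hINP) specNWT (specRSD specFLC)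
  have hGNG : SpecGNG := specGNG hDer hKae hUPI hUPL hLWR hDIM hIRP hINP
  have hGNL : SpecGNL := specGNL hIRP hFinT hGonAbs specFRM hLWR hINP hDer
  have hCNT : SpecCNT := specCNT (specRDV specSYL) specRDG specRNZ
  have hSMT : SpecSMT := specSMT specLEV specZER specCEL hCNT
  have hSTG : SpecSTG := specSTG
  have hNRG : SpecNRG := specNRG
  have hSHG : SpecSHG := specSHG hNRG
  have hRGG : SpecRGG := specRGG hNRG
  have hPRS : SpecPRS := specPRS
  have hVFF : SpecVFF := specVFF hSTG hPRS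
  have hVFL : SpecVFL := specVFL hSTG hPRS hVFF
  have hENG : SpecENG := specENG hSTG hVFF
  have hCOF : SpecCOF := specCOF hSTG
  have hNOG : SpecNOG := specNOG hSTG hCOF
  have hDTG : SpecDTG := specDTG hVFL hENG hCOF hNOG
  have hCQG : SpecCQG := specCQG hIRP
  have hK2G : SpecK2G := specK2G hSTG hSHG hRGG hCOF hDTG specLMG specING (specSPX hSTG)
    specCNG (specEMG hIRP) hCQG
  have hUMK : SpecUMK := specUMK hSTG
  have hLRK : SpecLRK := specLRK hSTG hUMK (specMUK specPBK) specNMK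
  have hmain := concl hIRP hCQG hGNG hGNL hSMT hK2G
  have hfin := finite (specFNK hUMK hLRK) hmain
  refine ⟨fun D lam Λ h1 h2 => fullRank_of (hmain D lam Λ h1 h2),
    fun D lam h1 h2 => fullRank_of (large hLRK hmain D lam h1 h2), hfin.subset ?_⟩
  rintro z ⟨h1, D, h2, h3, h4, h5⟩
  exact ⟨h1, D, h2, h3, h4, fun h6 => h5 (fullRank_of h6)⟩

end MP743d1e.GA
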